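import Pool.Agent.H.MP_114ef8_mp.D

set_option autoImplicit false

namespace Pool.Agent.Results.MP_114ef8_mp.Critical

open MeasureTheory Pool.Agent.H.MP_114ef8_mp

theorem result (n : ℕ) (s : ℝ) (hs : (n : ℝ) / 2 < s) :
    ∃ L : ℝ, ∀ V : EuclideanSpace ℝ (Fin n) → ℝ,
      Integrable (fun x => max (V x) 0) → LocallyIntegrable (fun x => max (-V x) 0) →
      ∀ (ι : Type) (f : ι → LL (EuclideanSpace ℝ (Fin n))) (e : ι → ℝ),
        IsON f → (∀ k, e k < 0 ∧ IsEig s V (f k) (e k)) →
        Summable (fun k => |e k| ^ (1 - n / (2 * s))) ∧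
          ∑' k, |e k| ^ (1 - n / (2 * s)) ≤ L * ∫ x, max (V x) 0 := by
  obtain ⟨L, hL⟩ := main (V := EuclideanSpace ℝ (Fin n)) (s := s) (by simp; linarith)
  refine ⟨L, fun V h1 h2 ι f e ho he => ?_⟩
  have key : ∀ t : Finset ι, ∑ k ∈ t, |e k| ^ (1 - n / (2 * s)) ≤ L * ∫ x, max (V x) 0 := by
    intro t
    have := hL V h1 h2 t.card (fun i => f (t.equivFin.symm i)) (fun i => e (t.equivFin.symm i))
      (Orthonormal.comp ho _ (Subtype.val_injective.comp t.equivFin.symm.injective)) (fun i => he _)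
    rw [finrank_euclideanSpace_fin,
      Equiv.sum_comp t.equivFin.symm (fun k : t => |e k| ^ (1 - n / (2 * s))),
      Finset.sum_coe_sort t (fun k => |e k| ^ (1 - n / (2 * s)))] at this
    exact this
  have hsum := summable_of_sum_le (fun k => by positivity) key
  exact ⟨hsum, hsum.tsum_le_of_sum_le key⟩

end Pool.Agent.Results.MP_114ef8_mp.Critical
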